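import Pool.Agent.Run7.h177.TA.Iface

/-!
# Project TA (helper177), piece KRU: analytic functions of `u`, `θ` with a denominator are regular (helper824)
-/

set_option autoImplicit false

namespace Run7.h824.TA

open MvPolynomial Filter Topology Asymptotics Metric
open Run7.h177.TA (Pl lc S_TAY S_KRU)

section Alg

variable {w : ℕ}

/-- the ideal of the origin -/
noncomputable abbrev PP (w : ℕ) : Ideal (Pl ℂ w) := idealOfVars (Option (Fin w)) ℂ

/-- the ideal generated by `M` and the `N`-th power of the ideal of the origin -/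
noncomputable def IN (M : Pl ℂ w) (N : ℕ) : Ideal (Pl ℂ w) := Ideal.span {M} ⊔ PP w ^ N

theorem mem_PP (h : Pl ℂ w) : h ∈ PP w ↔ constantCoeff h = 0 := by
  have h1 := mem_pow_idealOfVars_iff' (σ := Option (Fin w)) (R := ℂ) 1 h
  rw [pow_one] at h1
  refine h1.trans ⟨fun h2 => h2 0 (by simp), fun h2 x hx => ?_⟩
  have h3 : x = 0 := by
    rw [← Finsupp.degree_eq_zero_iff]
    omega
  rw [h3]
  exact h2

/-- `h` is congruent to a polynomial in the `U_i` -/
def Red (M : Pl ℂ w) (N : ℕ) (h : Pl ℂ w) : Prop :=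
  ∃ h₀ : MvPolynomial (Fin w) ℂ, h - rename some h₀ ∈ IN M N

theorem Red.add {M : Pl ℂ w} {N : ℕ} {h k : Pl ℂ w} (hh : Red M N h) (hk : Red M N k) : Red M N (h + k) := by
  obtain ⟨a, ha⟩ := hh
  obtain ⟨b, hb⟩ := hk
  refine ⟨a + b, ?_⟩
  have e : h + k - rename some (a + b) = (h - rename some a) + (k - rename some b) := by
    rw [map_add]; ring
  rw [e]
  exact add_mem ha hb

theorem Red.mul {M : Pl ℂ w} {N : ℕ} {h k : Pl ℂ w} (hh : Red M N h) (hk : Red M N k) : Red M N (h * k) := by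
  obtain ⟨a, ha⟩ := hh
  obtain ⟨b, hb⟩ := hk
  refine ⟨a * b, ?_⟩
  have e : h * k - rename some (a * b) = k * (h - rename some a) + rename some a * (k - rename some b) := by
    rw [map_mul]; ring
  rw [e]
  exact add_mem (Ideal.mul_mem_left _ _ ha) (Ideal.mul_mem_left _ _ hb)

theorem red_C (M : Pl ℂ w) (N : ℕ) (c : ℂ) : Red M N (C c) := ⟨C c, by simp⟩

theorem red_X (M : Pl ℂ w) (N : ℕ) (i : Fin w) : Red M N (X (some i)) := ⟨X i, by simp⟩

theorem red_mem {M : Pl ℂ w} {N : ℕ} {h : Pl ℂ w} (hh : h ∈ IN M N) : Red M N h := ⟨0, by simpa using hh⟩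

theorem Red.sum {M : Pl ℂ w} {N : ℕ} {ι : Type} (s : Finset ι) (f : ι → Pl ℂ w) (hf : ∀ i ∈ s, Red M N (f i)) :
    Red M N (∑ i ∈ s, f i) := by
  classical
  induction s using Finset.induction_on with
  | empty => simpa using red_C M N 0
  | insert a s ha ih =>
    rw [Finset.sum_insert ha]
    exact (hf a (Finset.mem_insert_self _ _)).add (ih fun i hi => hf i (Finset.mem_insert_of_mem hi))

theorem Red.neg {M : Pl ℂ w} {N : ℕ} {h : Pl ℂ w} (hh : Red M N h) : Red M N (-h) := by
  have := (red_C M N (-1)).mul hh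
  simpa using this

/-- the linear part -/
theorem lin_part (M : Pl ℂ w) (h0 : constantCoeff M = 0) :
    M - ∑ o : Option (Fin w), C (lc o M) * X o ∈ PP w ^ 2 := by
  classical
  rw [mem_pow_idealOfVars_iff']
  intro x hx
  have hx' : x = 0 ∨ ∃ j, x = Finsupp.single j 1 := by
    rcases Nat.lt_or_ge (Finsupp.degree x) 1 with h | h
    · left
      rw [← Finsupp.degree_eq_zero_iff]
      omega
    · right
      have h1 : x ∈ {d : Option (Fin w) →₀ ℕ | d.degree = 1} := by
        show x.degree = 1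
        omega
      rw [← Finsupp.range_single_one] at h1
      obtain ⟨j, hj⟩ := h1
      exact ⟨j, hj.symm⟩
  rw [coeff_sub, coeff_sum]
  simp only [coeff_C_mul, coeff_X]
  rcases hx' with rfl | ⟨j, rfl⟩
  · have : coeff 0 M = 0 := h0
    rw [this, zero_sub, neg_eq_zero]
    apply Finset.sum_eq_zero
    intro o _
    rw [if_neg (by simp), mul_zero]
  · have h1 : ∀ o : Option (Fin w), (Finsupp.single o 1 : Option (Fin w) →₀ ℕ) = Finsupp.single j 1 ↔ o = j := by
      intro o
      exact (Finsupp.single_left_inj one_ne_zero)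
    simp only [h1]
    simp [lc]

theorem red_all (M : Pl ℂ w) (h0 : constantCoeff M = 0) (h1 : lc none M ≠ 0) : ∀ (N : ℕ) (h : Pl ℂ w), Red M N h := by
  intro N
  induction N with
  | zero =>
    intro h
    refine red_mem ?_
    rw [IN, pow_zero, Ideal.one_eq_top, sup_top_eq]
    trivial
  | succ N ih =>
    rcases Nat.eq_zero_or_pos N with hN | hN
    · subst hN
      intro h
      refine ⟨C (constantCoeff h), ?_⟩
      refine Ideal.mem_sup_right ?_
      rw [zero_add, pow_one, mem_PP]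
      simp
    -- `I_N ⊆ 𝔓`
    have hIP : IN M N ≤ PP w := by
      refine sup_le ?_ (Ideal.pow_le_self (by omega))
      rw [Ideal.span_le, Set.singleton_subset_iff]
      exact (mem_PP M).2 h0
    have hPI : ∀ x ∈ PP w, ∀ y ∈ IN M N, x * y ∈ IN M (N + 1) := by
      intro x hx y hy
      obtain ⟨a, ha, b, hb, rfl⟩ := Submodule.mem_sup.1 hy
      rw [mul_add]
      refine add_mem (Ideal.mem_sup_left (Ideal.mul_mem_left _ _ ha)) (Ideal.mem_sup_right ?_)
      rw [pow_succ, mul_comm x b]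
      exact Ideal.mul_mem_mul hb hx
    have hprod : ∀ x ∈ PP w, ∀ y ∈ PP w, Red M (N + 1) (x * y) := by
      intro x hx y hy
      obtain ⟨a, ha⟩ := ih x
      obtain ⟨b, hb⟩ := ih y
      have ha0 : rename some a ∈ PP w := by
        have := sub_mem hx (hIP ha)
        rwa [sub_sub_cancel] at this
      refine ⟨a * b, ?_⟩
      have e : x * y - rename some (a * b) = y * (x - rename some a) + rename some a * (y - rename some b) := by
        rw [map_mul]; ring
      rw [e]
      exact add_mem (hPI _ hy _ ha) (hPI _ ha0 _ hb)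
    have hsq : ∀ x ∈ PP w ^ 2, Red M (N + 1) x := by
      intro x hx
      rw [pow_two] at hx
      refine Submodule.mul_induction_on hx (fun m hm n hn => hprod m hm n hn) fun x y hx hy => hx.add hy
    have hΘ : Red M (N + 1) (X none) := by
      have e := lin_part M h0
      obtain ⟨R, hR⟩ : ∃ R, R = M - ∑ o : Option (Fin w), C (lc o M) * X o := ⟨_, rfl⟩
      rw [← hR] at e
      rw [Fintype.sum_option] at hR
      have hX : X none = C ((lc none M)⁻¹) * (M + -(∑ i : Fin w, C (lc (some i) M) * X (some i)) + -R) := by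
        rw [hR]
        have e1 : M + -(∑ i : Fin w, C (lc (some i) M) * X (some i)) +
            -(M - (C (lc none M) * X none + ∑ i : Fin w, C (lc (some i) M) * X (some i))) =
            C (lc none M) * X none := by ring
        rw [e1, ← mul_assoc, ← C_mul, inv_mul_cancel₀ h1, C_1, one_mul]
      rw [hX]
      refine (red_C M _ _).mul (((red_mem ?_).add (Red.neg (Red.sum _ _ fun i _ =>
        (red_C M _ _).mul (red_X M _ i)))).add (hsq R e).neg)
      exact Ideal.mem_sup_left (Ideal.mem_span_singleton_self M)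
    intro h
    induction h using MvPolynomial.induction_on with
    | C a => exact red_C M _ a
    | add p q hp hq => exact hp.add hq
    | mul_X p o hp =>
      refine hp.mul ?_
      cases o with
      | none => exact hΘ
      | some i => exact red_X M _ i

/-- the same with a polynomial of degree `< N` -/
theorem red_deg (M : Pl ℂ w) (h0 : constantCoeff M = 0) (h1 : lc none M ≠ 0) (N : ℕ) (h : Pl ℂ w) :
    ∃ h₀ : MvPolynomial (Fin w) ℂ, (∀ m ∈ h₀.support, m.degree < N) ∧ h - rename some h₀ ∈ IN M N := by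
  classical
  obtain ⟨a, ha⟩ := red_all M h0 h1 N h
  obtain ⟨b, hb⟩ : ∃ b : MvPolynomial (Fin w) ℂ, b = ∑ m ∈ a.support.filter (fun m => m.degree < N), monomial m (coeff m a) :=
    ⟨_, rfl⟩
  obtain ⟨c, hc⟩ : ∃ c : MvPolynomial (Fin w) ℂ, c = ∑ m ∈ a.support.filter (fun m => ¬ m.degree < N), monomial m (coeff m a) :=
    ⟨_, rfl⟩
  have habc : a = b + c := by
    rw [hb, hc, Finset.sum_filter_add_sum_filter_not]
    exact (support_sum_monomial_coeff a).symm
  refine ⟨b, ?_, ?_⟩
  · intro m hm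
    rw [hb, mem_support_iff, coeff_sum] at hm
    obtain ⟨m', hm', h3⟩ := Finset.exists_ne_zero_of_sum_ne_zero hm
    have h4 : m = m' := by
      rw [coeff_monomial] at h3
      by_contra hne
      rw [if_neg (Ne.symm hne)] at h3
      exact h3 rfl
    rw [h4]
    exact (Finset.mem_filter.1 hm').2
  · have hc' : rename some c ∈ IN M N := by
      refine Ideal.mem_sup_right ?_
      rw [hc, map_sum]
      refine sum_mem fun m hm => ?_
      rw [Finset.mem_filter] at hm
      rw [rename_monomial, mem_pow_idealOfVars_iff]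
      intro x hx
      have := support_monomial_subset hx
      rw [Finset.mem_singleton] at this
      rw [this, Finsupp.degree_mapDomain]
      omega
    have e : h - rename some b = (h - rename some a) + rename some c := by
      rw [habc, map_add]
      ring
    rw [e]
    exact add_mem ha hc'

end Alg

section An

variable {w : ℕ}

/-- the local inverse -/
theorem local_inv (u : Fin w → (Fin w → ℂ) → ℂ) (hu : ∀ i, AnalyticAt ℂ (u i) 0) (hu0 : ∀ i, u i 0 = 0)
    (hinj : ∀ v : Fin w → ℂ, (∀ i, fderiv ℂ (u i) 0 v = 0) → v = 0) :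
    ∃ φ : (Fin w → ℂ) → (Fin w → ℂ), AnalyticAt ℂ φ 0 ∧ φ 0 = 0 ∧ (∀ᶠ s in 𝓝 0, (fun i => u i (φ s)) = s) ∧
      (∀ᶠ t in 𝓝 0, φ (fun i => u i t) = t) := by
  obtain ⟨U, hU⟩ : ∃ U : (Fin w → ℂ) → (Fin w → ℂ), U = fun t i => u i t := ⟨_, rfl⟩
  have hUa : AnalyticAt ℂ U 0 := by
    rw [hU]
    exact analyticAt_pi_iff.2 hu
  have hU0 : U 0 = 0 := by
    rw [hU]
    funext i
    exact hu0 i
  have hinj' : Function.Injective (fderiv ℂ U 0 : (Fin w → ℂ) →ₗ[ℂ] (Fin w → ℂ)) := by
    rw [injective_iff_map_eq_zero]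
    intro v hv
    apply hinj
    intro i
    have h1 : fderiv ℂ U 0 = ContinuousLinearMap.pi fun i => fderiv ℂ (u i) 0 := by
      rw [hU]
      exact fderiv_pi fun i => (hu i).differentiableAt
    have h2 : fderiv ℂ U 0 v = 0 := hv
    rw [h1] at h2
    exact congrFun h2 i
  obtain ⟨e, he⟩ : ∃ e : (Fin w → ℂ) ≃L[ℂ] (Fin w → ℂ), (e : (Fin w → ℂ) →L[ℂ] (Fin w → ℂ)) = fderiv ℂ U 0 := by
    refine ⟨(LinearEquiv.ofInjectiveEndo _ hinj').toContinuousLinearEquiv, ?_⟩
    ext v i
    rfl
  have hst : HasStrictFDerivAt U (e : (Fin w → ℂ) →L[ℂ] (Fin w → ℂ)) 0 := by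
    rw [he]
    exact hUa.hasStrictFDerivAt
  obtain ⟨R, hR⟩ : ∃ R : OpenPartialHomeomorph (Fin w → ℂ) (Fin w → ℂ), R = hst.toOpenPartialHomeomorph U := ⟨_, rfl⟩
  have hRU : ∀ x, R x = U x := by
    intro x
    rw [hR]
    rfl
  have h0s : (0 : Fin w → ℂ) ∈ R.source := by
    rw [hR]
    exact HasStrictFDerivAt.mem_toOpenPartialHomeomorph_source _
  have h0t : (0 : Fin w → ℂ) ∈ R.target := by
    have := R.map_source h0s
    rwa [hRU, hU0] at this
  have hRf : (R : (Fin w → ℂ) → (Fin w → ℂ)) = U := funext hRU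
  refine ⟨R.symm, ?_, ?_, ?_, ?_⟩
  · have := R.analyticAt_symm' h0s (by rw [hRf]; exact hUa) (i := e) (by rw [hRf, he])
    rwa [hRU, hU0] at this
  · have := R.left_inv h0s
    rwa [hRU, hU0] at this
  · filter_upwards [R.open_target.mem_nhds h0t] with s hs
    have := R.right_inv hs
    rw [hRU, hU] at this
    exact this
  · filter_upwards [R.open_source.mem_nhds h0s] with s hs
    have := R.left_inv hs
    rw [hRU, hU] at this
    exact this

theorem isBigO_norm {E : Type} [NormedAddCommGroup E] [NormedSpace ℂ E] (f : (Fin w → ℂ) → E) (hf : AnalyticAt ℂ f 0) (h0 : f 0 = 0) :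
    f =O[𝓝 0] fun t => ‖t‖ := by
  have := (hf.differentiableAt.hasFDerivAt).isBigO_sub
  simpa [h0] using this.norm_right

theorem isBigO_one' (P : (Fin w → ℂ) → Option (Fin w) → ℂ) (hP : ∀ o, AnalyticAt ℂ (fun t => P t o) 0) (h : Pl ℂ w) :
    (fun t => eval (P t) h) =O[𝓝 0] fun _ => (1 : ℝ) := by
  have h1 : ContinuousAt P 0 := continuousAt_pi.2 fun o => (hP o).continuousAt
  have h2 : ContinuousAt (fun t => eval (P t) h) 0 :=
    ContinuousAt.comp (g := fun x => eval x h) (MvPolynomial.continuous_eval h).continuousAt h1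
  exact h2.isBigO_one ℝ

theorem isBigO_PP (P : (Fin w → ℂ) → Option (Fin w) → ℂ) (hP : ∀ o, AnalyticAt ℂ (fun t => P t o) 0)
    (hP0 : ∀ o, P 0 o = 0) {h : Pl ℂ w} (hh : h ∈ PP w) : (fun t => eval (P t) h) =O[𝓝 0] fun t => ‖t‖ := by
  refine Submodule.span_induction ?_ ?_ ?_ ?_ hh
  · rintro _ ⟨o, rfl⟩
    simp only [eval_X]
    exact isBigO_norm _ (hP o) (hP0 o)
  · simp only [map_zero]
    exact isBigO_zero _ _
  · intro x y _ _ hx hy
    simp only [map_add]
    exact hx.add hy
  · intro a x _ hx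
    simp only [smul_eq_mul, map_mul]
    have := (isBigO_one' P hP a).mul hx
    simpa using this

theorem isBigO_pow (P : (Fin w → ℂ) → Option (Fin w) → ℂ) (hP : ∀ o, AnalyticAt ℂ (fun t => P t o) 0)
    (hP0 : ∀ o, P 0 o = 0) : ∀ (N : ℕ) {h : Pl ℂ w}, h ∈ PP w ^ N →
    (fun t => eval (P t) h) =O[𝓝 0] fun t => ‖t‖ ^ N := by
  intro N
  induction N with
  | zero =>
    intro h _
    simpa using isBigO_one' P hP h
  | succ N ih =>
    intro h hh
    rw [pow_succ] at hh
    refine Submodule.mul_induction_on hh ?_ ?_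
    · intro x hx y hy
      simp only [map_mul, pow_succ]
      exact (ih hx).mul (isBigO_PP P hP hP0 hy)
    · intro x y hx hy
      simp only [map_add]
      exact hx.add hy

end An

/-- **KRU.** -/
theorem t_KRU (hT : S_TAY) : S_KRU := by
  intro w u θ f M p q hu hθ hf hu0 hθ0 hinj hM1 hM hpq
  obtain ⟨P, hPd⟩ : ∃ P : (Fin w → ℂ) → Option (Fin w) → ℂ, P = fun t o => o.elim (θ t) fun i => u i t := ⟨_, rfl⟩
  have hPe : ∀ t, (fun o : Option (Fin w) => o.elim (θ t) fun i => u i t) = P t := fun t => by rw [hPd]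
  simp only [hPe] at hM hpq
  have hP : ∀ o, AnalyticAt ℂ (fun t => P t o) 0 := by
    intro o
    rw [hPd]
    cases o with
    | none => exact hθ
    | some i => exact hu i
  have hP0 : ∀ o, P 0 o = 0 := by
    intro o
    rw [hPd]
    cases o with
    | none => exact hθ0
    | some i => exact hu0 i
  have hM0 : constantCoeff M = 0 := by
    have h1 := hM.self_of_nhds
    have h2 : P 0 = 0 := funext hP0
    rw [h2] at h1
    rw [← eval_zero]
    exact h1
  obtain ⟨φ, hφ, hφ0, hUφ, hφU⟩ := local_inv u hu hu0 hinj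
  obtain ⟨hT1, hT2⟩ := hT w
  have hUan : AnalyticAt ℂ (fun t => fun i => u i t : (Fin w → ℂ) → (Fin w → ℂ)) 0 := analyticAt_pi_iff.2 hu
  have hU0 : (fun i => u i 0) = (0 : Fin w → ℂ) := funext hu0
  have hUO : (fun t => fun i => u i t : (Fin w → ℂ) → (Fin w → ℂ)) =O[𝓝 0] fun t => ‖t‖ := isBigO_norm _ hUan hU0
  have hφO : φ =O[𝓝 0] fun t => ‖t‖ := isBigO_norm _ hφ hφ0
  have hUt : Tendsto (fun t => fun i => u i t : (Fin w → ℂ) → (Fin w → ℂ)) (𝓝 0) (𝓝 0) := by
    have := hUan.continuousAt.tendsto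
    rwa [hU0] at this
  have hφt : Tendsto φ (𝓝 0) (𝓝 0) := by
    have := hφ.continuousAt.tendsto
    rwa [hφ0] at this
  -- every `N`
  have key : ∀ N : ℕ, ∃ a b c : Pl ℂ w, c ∈ PP w ^ N ∧ p = q * a + M * b + c := by
    intro N
    have hfφ : AnalyticAt ℂ (fun s => f (φ s)) 0 := by
      refine AnalyticAt.fun_comp ?_ hφ
      rw [hφ0]
      exact hf
    obtain ⟨H, -, hH⟩ := hT1 _ hfφ N
    obtain ⟨h, hh⟩ : ∃ h, h = p - q * rename some H := ⟨_, rfl⟩
    obtain ⟨h₀, hdeg, hmem⟩ := red_deg M hM0 hM1 N h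
    have heval : ∀ (G : MvPolynomial (Fin w) ℂ) (t : Fin w → ℂ), eval (P t) (rename some G) = eval (fun i => u i t) G := by
      intro G t
      rw [eval_rename, hPd]
      rfl
    -- the size of `h`
    have hO1 : (fun t => eval (P t) h) =O[𝓝 0] fun t => ‖t‖ ^ N := by
      have h1 : (fun t => f t - eval (fun i => u i t) H) =O[𝓝 0] fun t => ‖t‖ ^ N := by
        have h2 := hH.comp_tendsto hUt
        have h3 : (fun t : Fin w → ℂ => ‖(fun i => u i t : Fin w → ℂ)‖ ^ N) =O[𝓝 0] fun t => ‖t‖ ^ N := by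
          have := (hUO.norm_left).pow N
          exact this
        refine (h2.trans h3).congr' ?_ EventuallyEq.rfl
        filter_upwards [hφU] with t ht
        simp only [Function.comp_apply]
        rw [ht]
      have h4 := (isBigO_one' P hP q).mul h1
      simp only [one_mul] at h4
      refine h4.congr' ?_ EventuallyEq.rfl
      filter_upwards [hpq] with t ht
      rw [hh, map_sub, map_mul, heval, ← ht]
      ring
    obtain ⟨x, hx, y, hy, hxy⟩ := Submodule.mem_sup.1 hmem
    obtain ⟨b, hb⟩ := Ideal.mem_span_singleton.1 hx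
    have hO2 : (fun t => eval (fun i => u i t) h₀) =O[𝓝 0] fun t : Fin w → ℂ => ‖t‖ ^ N := by
      have h5 := hO1.sub (isBigO_pow P hP hP0 N hy)
      refine h5.congr' ?_ EventuallyEq.rfl
      filter_upwards [hM] with t ht
      have e : rename some h₀ = h - y - M * b := by
        rw [← hb]
        have : h = x + y + rename some h₀ := by rw [hxy]; ring
        rw [this]
        ring
      rw [← heval, e, map_sub, map_sub, map_mul, ht, zero_mul, sub_zero]
    have hO3 : (fun s => eval s h₀) =O[𝓝 0] fun s : Fin w → ℂ => ‖s‖ ^ N := by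
      have h6 := hO2.comp_tendsto hφt
      have h7 : (fun s : Fin w → ℂ => ‖φ s‖ ^ N) =O[𝓝 0] fun s => ‖s‖ ^ N := (hφO.norm_left).pow N
      refine (h6.trans h7).congr' ?_ EventuallyEq.rfl
      filter_upwards [hUφ] with s hs
      simp only [Function.comp_apply]
      rw [hs]
    have hz := hT2 N h₀ hdeg hO3
    refine ⟨rename some H, b, y, hy, ?_⟩
    rw [hz, map_zero, sub_zero] at hxy
    rw [← hb]
    have : p = h + q * rename some H := by rw [hh]; ring
    rw [this, ← hxy]
    ring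
  -- the theorem of Krull
  obtain ⟨J, hJ⟩ : ∃ J : Ideal (Pl ℂ w), J = Ideal.span {q, M} := ⟨_, rfl⟩
  have hx : (Submodule.Quotient.mk p : Pl ℂ w ⧸ J) ∈ (⨅ i : ℕ, PP w ^ i • ⊤ : Submodule (Pl ℂ w) (Pl ℂ w ⧸ J)) := by
    rw [Submodule.mem_iInf]
    intro N
    obtain ⟨a, b, c, hc, e⟩ := key N
    have h1 : (Submodule.Quotient.mk p : Pl ℂ w ⧸ J) = c • (Submodule.Quotient.mk 1 : Pl ℂ w ⧸ J) := by
      rw [← Submodule.Quotient.mk_smul, smul_eq_mul, mul_one, Submodule.Quotient.eq, hJ, e]
      have e2 : q * a + M * b + c - c = a * q + b * M := by ring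
      rw [e2]
      exact Ideal.mem_span_pair.2 ⟨a, b, rfl⟩
    rw [h1]
    exact Submodule.smul_mem_smul hc trivial
  rw [Ideal.mem_iInf_smul_pow_eq_bot_iff] at hx
  obtain ⟨r, hr⟩ := hx
  have h2 : (1 - (r : Pl ℂ w)) * p ∈ J := by
    have h3 : (Submodule.Quotient.mk ((r : Pl ℂ w) * p) : Pl ℂ w ⧸ J) = Submodule.Quotient.mk p := by
      rw [← smul_eq_mul, Submodule.Quotient.mk_smul]
      exact hr
    rw [Submodule.Quotient.eq] at h3
    have e : (1 - (r : Pl ℂ w)) * p = -((r : Pl ℂ w) * p - p) := by ring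
    rw [e]
    exact neg_mem h3
  rw [hJ, Ideal.mem_span_pair] at h2
  obtain ⟨a, b, hab⟩ := h2
  refine ⟨1 - r, a, b, ?_, ?_⟩
  · rw [map_sub, map_one, (mem_PP _).1 r.2, sub_zero]
  · rw [← hab]
    ring

end Run7.h824.TA
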