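import Pool.Agent.Run7.h177.TA.Iface

/-!
# Project TA (helper177), piece SCH: the lemma of Schwarz with multiplicity (helper824)
-/

set_option autoImplicit false

namespace Run7.h824.TA

open Filter Topology Asymptotics Metric
open Run7.h177.TA (S_SCH)

/-- **SCH.** -/
theorem t_SCH : S_SCH := by
  intro w K F c R B hR han hb hO t ht
  have hd : DifferentiableOn ℂ F (ball c R) := fun x hx => (han x hx).differentiableAt.differentiableWithinAt
  have hc : c ∈ ball c R := mem_ball_self hR
  have hB : 0 ≤ B := (norm_nonneg _).trans (hb c hc)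
  have htb : t ∈ ball c R := by
    rw [mem_ball]
    linarith
  rcases Nat.eq_zero_or_pos K with hK | hK
  · subst hK
    simpa using hb t htb
  obtain ⟨n, rfl⟩ : ∃ n, K = n + 1 := ⟨K - 1, by omega⟩
  have hFc : F c = 0 := by
    obtain ⟨C, hC⟩ := hO.bound
    have := hC.self_of_nhds
    simpa using this
  have hmaps : Set.MapsTo F (ball c R) (closedBall (F c) B) := by
    intro x hx
    rw [hFc, mem_closedBall_zero_iff]
    exact hb x hx
  have ho : (F · - F c) =o[𝓝 c] (fun x => ‖x - c‖ ^ n) := by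
    have h1 : (fun x => F x - F c) =O[𝓝 c] fun x => ‖x - c‖ ^ (n + 1) := by
      simpa [hFc] using hO
    refine h1.trans_isLittleO ?_
    have h2 : (fun x : Fin w → ℂ => ‖x - c‖ ^ (n + 1)) = fun x => ‖x - c‖ * ‖x - c‖ ^ n := by
      funext x
      ring
    rw [h2]
    have h3 : (fun x : Fin w → ℂ => ‖x - c‖) =o[𝓝 c] (fun _ => (1 : ℝ)) := by
      rw [isLittleO_one_iff]
      have : Tendsto (fun x : Fin w → ℂ => ‖x - c‖) (𝓝 c) (𝓝 ‖c - c‖) :=
        ((continuous_id.sub continuous_const).norm).tendsto c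
      simpa using this
    have h4 := h3.mul_isBigO (isBigO_refl (fun x : Fin w → ℂ => ‖x - c‖ ^ n) (𝓝 c))
    simpa using h4
  have h := Complex.dist_le_mul_div_pow_of_mapsTo_ball_of_isLittleO hd hmaps ho htb
  rw [hFc, dist_zero_right] at h
  have h5 : dist t c / R ≤ 1 / 2 := by
    rw [div_le_iff₀ hR]
    linarith
  calc ‖F t‖ ≤ B * (dist t c / R) ^ (n + 1) := h
    _ ≤ B * (1 / 2) ^ (n + 1) := by
        refine mul_le_mul_of_nonneg_left ?_ hB
        exact pow_le_pow_left₀ (div_nonneg dist_nonneg hR.le) h5 _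
    _ = B / 2 ^ (n + 1) := by rw [div_pow, one_pow, mul_one_div]

end Run7.h824.TA
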