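import Pool.Agent.Run7.h824.TA.SIEa

/-!
# Project TA (helper177), piece SIE: the lemma of Siegel (helper824)
-/

set_option autoImplicit false

namespace Run7.h824.TA

open MvPolynomial Filter Topology Asymptotics Metric
open Pool.Agent.TH182.TC (PS Holo HoloAt)
open Run7.h177.TA (MH ev mp S_LIP S_JET S_SCH S_SIE)

section Geo

variable {w n : ℕ}

/-- the periods -/
def Per (g : (Fin w → ℂ) → PS n) : AddSubgroup (Fin w → ℂ) where
  carrier := {v | ∀ z, g (z + v) = g z}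
  zero_mem' := fun z => by rw [add_zero]
  add_mem' := by
    intro a b ha hb z
    rw [← add_assoc, hb, ha]
  neg_mem' := by
    intro a ha z
    have := ha (z + -a)
    rw [neg_add_cancel_right] at this
    exact this.symm

theorem mp_per (g : (Fin w → ℂ) → PS n) {v : Fin w → ℂ} (hv : v ∈ Per g) (j : ℕ × (Fin w → ℂ)) (t : Fin w → ℂ) :
    mp g j (t + v) = mp g j t := by
  unfold mp
  have h1 : (2 : ℂ) ^ j.1 • (t + v) + j.2 = ((2 : ℂ) ^ j.1 • t + j.2) + (2 ^ j.1 : ℕ) • v := by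
    rw [smul_add, ← Nat.cast_smul_eq_nsmul ℂ]
    push_cast
    abel
  rw [h1]
  exact (AddSubgroup.nsmul_mem _ hv _) _

theorem ev_per (g : (Fin w → ℂ) → PS n) {v : Fin w → ℂ} (hv : v ∈ Per g)
    (T : MvPolynomial ((ℕ × (Fin w → ℂ)) × Fin (n + 1)) ℂ) (t : Fin w → ℂ) : ev g T (t + v) = ev g T t := by
  unfold ev
  simp only [mp_per g hv]

theorem NN_per (g : (Fin w → ℂ) → PS n) {v : Fin w → ℂ} (hv : v ∈ Per g)
    (γ : (ℕ × (Fin w → ℂ)) →₀ ℕ) (t : Fin w → ℂ) : NN g γ (t + v) = NN g γ t := by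
  unfold NN
  simp only [mp_per g hv]

/-- the centres -/
noncomputable def cen (b : Module.Basis (Fin (2 * w)) ℝ (Fin w → ℂ)) (M : ℕ) (e : Fin (2 * w) → Fin M) : Fin w → ℂ :=
  ∑ i, (((e i : ℕ) : ℝ) / M) • b i

theorem cover (b : Module.Basis (Fin (2 * w)) ℝ (Fin w → ℂ)) (M : ℕ) (hM : 0 < M) (t : Fin w → ℂ) :
    ∃ (e : Fin (2 * w) → Fin M) (k : Fin (2 * w) → ℤ),
      ‖(t - ∑ i, k i • b i) - cen b M e‖ ≤ (∑ i, ‖b i‖) / M := by
  have hM0 : (0 : ℝ) < M := by exact_mod_cast hM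
  have h1 : ∀ x : ℝ, ∃ e : Fin M, |Int.fract x - ((e : ℕ) : ℝ) / M| ≤ 1 / M := by
    intro x
    have f0 := Int.fract_nonneg x
    have f1 := Int.fract_lt_one x
    have h2 : ⌊(M : ℝ) * Int.fract x⌋₊ < M := by
      rw [Nat.floor_lt (by positivity)]
      calc (M : ℝ) * Int.fract x < M * 1 := by gcongr
        _ = M := mul_one _
    refine ⟨⟨_, h2⟩, ?_⟩
    have h3 := Nat.floor_le (show 0 ≤ (M : ℝ) * Int.fract x by positivity)
    have h4 := Nat.lt_floor_add_one ((M : ℝ) * Int.fract x)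
    rw [abs_of_nonneg]
    · rw [sub_le_iff_le_add, ← add_div, le_div_iff₀ hM0]
      simp only
      linarith
    · rw [sub_nonneg, div_le_iff₀ hM0]
      simp only
      linarith
  choose e he using fun i => h1 (b.repr t i)
  refine ⟨e, fun i => ⌊b.repr t i⌋, ?_⟩
  have h6 : ∑ i, (Int.fract (b.repr t i) - ((e i : ℕ) : ℝ) / M) • b i =
      (t - ∑ i, ⌊b.repr t i⌋ • b i) - cen b M e := by
    have h7 : ∑ i, (Int.fract (b.repr t i) - ((e i : ℕ) : ℝ) / M) • b i =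
        (∑ i, b.repr t i • b i - ∑ i, ⌊b.repr t i⌋ • b i) - cen b M e := by
      unfold cen
      rw [← Finset.sum_sub_distrib, ← Finset.sum_sub_distrib]
      refine Finset.sum_congr rfl fun i _ => ?_
      rw [← Int.cast_smul_eq_zsmul ℝ, ← sub_smul, ← sub_smul, Int.fract]
    rw [h7, b.sum_repr]
  rw [← h6]
  refine (norm_sum_le _ _).trans ?_
  rw [Finset.sum_div]
  refine Finset.sum_le_sum fun i _ => ?_
  rw [norm_smul, Real.norm_eq_abs]
  calc |Int.fract (b.repr t i) - ((e i : ℕ) : ℝ) / M| * ‖b i‖ ≤ 1 / M * ‖b i‖ :=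
        mul_le_mul_of_nonneg_right (he i) (norm_nonneg _)
    _ = ‖b i‖ / M := by ring

/-- **the vanishing** -/
theorem vanish (hS : S_SCH) {C : ℝ} (g : (Fin w → ℂ) → PS n) (hg : Holo g)
    (hL : ∀ s t : Fin w → ℂ, (1 - C ^ 2 * ‖s - t‖ ^ 2) * (∑ i, ‖(g s).rep i‖ ^ 2) * (∑ i, ‖(g t).rep i‖ ^ 2) ≤
        ‖∑ i, (g s).rep i * (starRingEnd ℂ) ((g t).rep i)‖ ^ 2)
    (b : Module.Basis (Fin (2 * w)) ℝ (Fin w → ℂ)) (hper : ∀ z i, g (z + b i) = g z)
    (γ : (ℕ × (Fin w → ℂ)) →₀ ℕ) (T : MvPolynomial ((ℕ × (Fin w → ℂ)) × Fin (n + 1)) ℂ) (hT : MH γ T)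
    (M : ℕ) (hM : 0 < M) (R : ℝ) (hR : 0 < R) (hRM : (∑ i, ‖b i‖) / M ≤ R / 2)
    (q : (ℕ × (Fin w → ℂ)) → ℝ) (hq0 : ∀ j, 0 < q j)
    (hq : ∀ j ∈ γ.support, 1 ≤ q j ^ 2 * (1 - C ^ 2 * (2 ^ j.1 * R) ^ 2))
    (K : ℕ) (hK : (γ.prod fun j e => q j ^ e) < 2 ^ K)
    (hz : ∀ e : Fin (2 * w) → Fin M, (fun t => ev g T t / Lam g γ (cen b M e) t) =O[𝓝 (cen b M e)]
      fun t => ‖t - cen b M e‖ ^ K) :
    ∀ t, ev g T t = 0 := by
  -- the coordinates in the direction of the centre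
  have s1 : ∀ (c t : Fin w → ℂ), t ∈ ball c R → ∀ j ∈ γ.support, nn (mp g j t).rep ≤ q j * ‖lam g c j t‖ := by
    intro c t ht j hj
    rw [mem_ball, dist_eq_norm] at ht
    have h1 := hL ((2 : ℂ) ^ j.1 • t + j.2) ((2 : ℂ) ^ j.1 • c + j.2)
    have e1 : ((2 : ℂ) ^ j.1 • t + j.2) - ((2 : ℂ) ^ j.1 • c + j.2) = (2 : ℂ) ^ j.1 • (t - c) := by
      rw [smul_sub]
      abel
    rw [e1, norm_smul, norm_pow, Complex.norm_ofNat] at h1
    have h2 : (1 - C ^ 2 * (2 ^ j.1 * ‖t - c‖) ^ 2) * nn (mp g j t).rep ^ 2 * nn (mp g j c).rep ^ 2 ≤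
        ‖ip (mp g j t).rep (mp g j c).rep‖ ^ 2 := by
      rw [nn_sq, nn_sq]
      exact h1
    have hy := nn_pos (mp g j c).rep_nonzero
    have hx := nn_pos (mp g j t).rep_nonzero
    have h3 : ‖lam g c j t‖ ^ 2 = ‖ip (mp g j t).rep (mp g j c).rep‖ ^ 2 / nn (mp g j c).rep ^ 2 := by
      unfold lam
      rw [norm_div, Complex.norm_real, Real.norm_of_nonneg hy.le, div_pow]
    have h4 : (1 - C ^ 2 * (2 ^ j.1 * R) ^ 2) * nn (mp g j t).rep ^ 2 ≤ ‖lam g c j t‖ ^ 2 := by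
      rw [h3, le_div_iff₀ (by positivity)]
      refine le_trans ?_ h2
      gcongr
    have h5 : nn (mp g j t).rep ^ 2 ≤ (q j * ‖lam g c j t‖) ^ 2 := by
      calc nn (mp g j t).rep ^ 2 ≤ (q j ^ 2 * (1 - C ^ 2 * (2 ^ j.1 * R) ^ 2)) * nn (mp g j t).rep ^ 2 :=
            le_mul_of_one_le_left (by positivity) (hq j hj)
        _ = q j ^ 2 * ((1 - C ^ 2 * (2 ^ j.1 * R) ^ 2) * nn (mp g j t).rep ^ 2) := by ring
        _ ≤ q j ^ 2 * ‖lam g c j t‖ ^ 2 := by gcongr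
        _ = _ := by ring
    exact (sq_le_sq₀ hx.le (mul_nonneg (hq0 j).le (norm_nonneg _))).1 h5
  have s1' : ∀ (c t : Fin w → ℂ), t ∈ ball c R → ∀ j ∈ γ.support, lam g c j t ≠ 0 := by
    intro c t ht j hj h0
    have h1 := s1 c t ht j hj
    rw [h0, norm_zero, mul_zero] at h1
    exact absurd h1 (not_le.2 (nn_pos (mp g j t).rep_nonzero))
  obtain ⟨W, hW⟩ : ∃ W : ℝ, W = γ.prod fun j e => q j ^ e := ⟨_, rfl⟩
  have hW0 : 0 < W := by rw [hW]; exact Finset.prod_pos fun j _ => pow_pos (hq0 j) _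
  rw [← hW] at hK
  have s2 : ∀ (c t : Fin w → ℂ), t ∈ ball c R → NN g γ t ≤ W * ‖Lam g γ c t‖ := by
    intro c t ht
    unfold NN Lam
    rw [hW]
    unfold Finsupp.prod
    rw [norm_prod, ← Finset.prod_mul_distrib]
    refine Finset.prod_le_prod (fun j _ => pow_nonneg (nn_nonneg _) _) fun j hj => ?_
    rw [norm_pow, ← mul_pow]
    exact pow_le_pow_left₀ (nn_nonneg _) (s1 c t ht j hj) _
  -- the supremum
  obtain ⟨μ, hμ⟩ : ∃ μ : (Fin w → ℂ) → ℝ, μ = fun t => ‖ev g T t‖ / NN g γ t := ⟨_, rfl⟩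
  have hbdd : BddAbove (Set.range μ) := by
    refine ⟨∑ d ∈ T.support, ‖coeff d T‖, ?_⟩
    rintro _ ⟨t, rfl⟩
    rw [hμ]
    simp only
    rw [div_le_iff₀ (NN_pos g γ t)]
    unfold ev NN
    exact eval_bound hT (fun j => nn (mp g j t).rep) _ fun j l => le_nn _ _
  obtain ⟨m, hm⟩ : ∃ m : ℝ, m = ⨆ t, μ t := ⟨_, rfl⟩
  have hm1 : ∀ t, μ t ≤ m := fun t => by rw [hm]; exact le_ciSup hbdd t
  have hμ0 : ∀ t, 0 ≤ μ t := by
    intro t
    rw [hμ]
    exact div_nonneg (norm_nonneg _) (NN_pos g γ t).le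
  have hm0 : 0 ≤ m := (hμ0 0).trans (hm1 0)
  have hev : ∀ t, ‖ev g T t‖ = μ t * NN g γ t := by
    intro t
    rw [hμ]
    simp only
    rw [div_mul_cancel₀ _ (NN_pos g γ t).ne']
  have key : ∀ t, μ t ≤ m * W / 2 ^ K := by
    intro t
    obtain ⟨e, k, hek⟩ := cover b M hM t
    obtain ⟨v, hv⟩ : ∃ v, v = -∑ i, k i • b i := ⟨_, rfl⟩
    have hvP : v ∈ Per g := by
      rw [hv]
      refine neg_mem (sum_mem fun i _ => AddSubgroup.zsmul_mem _ ?_ _)
      intro z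
      exact hper z i
    obtain ⟨t', ht'⟩ : ∃ t', t' = t + v := ⟨_, rfl⟩
    have hμt : μ t = μ t' := by
      rw [hμ, ht']
      simp only
      rw [ev_per g hvP, NN_per g hvP]
    have hd : dist t' (cen b M e) ≤ R / 2 := by
      rw [dist_eq_norm, ht', hv, ← sub_eq_add_neg]
      exact hek.trans hRM
    have h1 := hS w K (fun t => ev g T t / Lam g γ (cen b M e) t) (cen b M e) R (m * W) hR
      (fun s hs => an_quot g hg γ T hT _ s (s1' _ s hs)) (fun s hs => by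
        have h2 := s2 _ s hs
        have h3 := NN_pos g γ s
        have h4 : 0 < ‖Lam g γ (cen b M e) s‖ := by
          by_contra hcon
          have : ‖Lam g γ (cen b M e) s‖ = 0 := le_antisymm (not_lt.1 hcon) (norm_nonneg _)
          rw [this, mul_zero] at h2
          linarith
        rw [norm_div, div_le_iff₀ h4, hev]
        calc μ s * NN g γ s ≤ m * (W * ‖Lam g γ (cen b M e) s‖) :=
              mul_le_mul (hm1 s) h2 h3.le hm0
          _ = _ := by ring) (hz e) t' hd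
    have hd2 : t' ∈ ball (cen b M e) R := by
      rw [mem_ball]
      linarith
    have h5 : Lam g γ (cen b M e) t' ≠ 0 := by
      intro h0
      have h2 := s2 _ t' hd2
      rw [h0, norm_zero, mul_zero] at h2
      exact absurd h2 (not_le.2 (NN_pos g γ t'))
    have h6 : 0 < ‖Lam g γ (cen b M e) t'‖ := norm_pos_iff.2 h5
    simp only [norm_div] at h1
    rw [div_le_iff₀ h6] at h1
    rw [hμt, hμ]
    simp only
    rw [div_le_iff₀ (NN_pos g γ t')]
    refine h1.trans ?_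
    refine mul_le_mul_of_nonneg_left (norm_Lam_le g γ _ t') ?_
    positivity
  have hm2 : m ≤ m * W / 2 ^ K := by
    conv_lhs => rw [hm]
    exact ciSup_le key
  have h2K : (0 : ℝ) < 2 ^ K := by positivity
  have hm3 : m = 0 := by
    by_contra hne
    have hpos : 0 < m := lt_of_le_of_ne hm0 (Ne.symm hne)
    rw [le_div_iff₀ h2K] at hm2
    have := mul_lt_mul_of_pos_left hK hpos
    linarith
  intro t
  have h1 := hev t
  have h2 : μ t = 0 := le_antisymm (by rw [← hm3]; exact hm1 t) (hμ0 t)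
  rw [h2, zero_mul] at h1
  exact norm_eq_zero.1 h1

end Geo

theorem exp_half : Real.exp (1 / 2) ≤ 2 := by
  have h1 : Real.exp (1 / 2) ^ 2 = Real.exp 1 := by
    rw [← Real.exp_nat_mul]
    norm_num
  have h2 := Real.exp_one_lt_d9
  have h3 := Real.exp_pos (1 / 2)
  by_contra hcon
  push Not at hcon
  nlinarith

theorem ip_self_ne {n : ℕ} {x : Fin (n + 1) → ℂ} (hx : x ≠ 0) : ip x x ≠ 0 := by
  have h1 : ip x x = ((nn x ^ 2 : ℝ) : ℂ) := by
    rw [nn_sq]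
    unfold ip
    push_cast
    refine Finset.sum_congr rfl fun i _ => ?_
    rw [Complex.mul_conj']
  rw [h1]
  have := nn_pos hx
  exact_mod_cast (pow_pos this 2).ne'

/-- **SIE.** -/
theorem t_SIE (hLIP : S_LIP) (hJ : S_JET) (hS : S_SCH) : S_SIE := by
  classical
  intro w n b g hw hg hper
  obtain ⟨C, hC, hL⟩ := hLIP w n b g hg hper
  obtain ⟨S, hSd⟩ : ∃ S : ℝ, S = ∑ i, ‖b i‖ := ⟨_, rfl⟩
  have hS0 : 0 < S := by
    rw [hSd]
    have i0 : Fin (2 * w) := ⟨0, by omega⟩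
    exact Finset.sum_pos' (fun i _ => norm_nonneg _) ⟨i0, Finset.mem_univ _, norm_pos_iff.2 (b.ne_zero i0)⟩
  obtain ⟨κ, hκ⟩ : ∃ κ : ℕ, κ = ⌈8 * C ^ 2 * S ^ 2 * w⌉₊ + 1 := ⟨_, rfl⟩
  have hκ1 : 8 * C ^ 2 * S ^ 2 * w + 1 ≤ (κ : ℝ) := by
    rw [hκ]
    push_cast
    have := Nat.le_ceil (8 * C ^ 2 * S ^ 2 * w)
    linarith
  refine ⟨κ ^ w, fun β P Q hP hQ l0 l => ?_⟩
  obtain ⟨D, hD⟩ : ∃ D, D = κ ^ w := ⟨_, rfl⟩
  rw [← hD]
  have hD0 : 0 < D := by
    rw [hD]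
    exact pow_pos (by omega) _
  -- the scale
  obtain ⟨E, hE⟩ : ∃ E : ℕ, E = β.support.sup (fun j => j.1) := ⟨_, rfl⟩
  have hEj : ∀ j ∈ β.support, j.1 ≤ E := fun j hj => by
    rw [hE]
    exact Finset.le_sup (f := fun j : ℕ × (Fin w → ℂ) => j.1) hj
  obtain ⟨M, hM⟩ : ∃ M : ℕ, M = ⌈4 * 2 ^ E * C * S⌉₊ + 1 := ⟨_, rfl⟩
  have hM0 : 0 < M := by omega
  have hMr : (0 : ℝ) < M := by exact_mod_cast hM0
  have hM1 : 4 * 2 ^ E * C * S ≤ (M : ℝ) := by
    rw [hM]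
    push_cast
    have := Nat.le_ceil (4 * 2 ^ E * C * S)
    linarith
  obtain ⟨R, hR⟩ : ∃ R : ℝ, R = 2 * S / M := ⟨_, rfl⟩
  have hR0 : 0 < R := by rw [hR]; positivity
  have hCR : 2 ^ E * (C * R) ≤ 1 / 2 := by
    have e : 2 ^ E * (C * R) = (2 * 2 ^ E * C * S) / M := by rw [hR]; ring
    rw [e, div_le_iff₀ hMr]
    linarith
  -- the exponents
  obtain ⟨x, hx⟩ : ∃ x : (ℕ × (Fin w → ℂ)) → ℝ, x = fun j => C ^ 2 * (2 ^ j.1 * R) ^ 2 := ⟨_, rfl⟩
  have hx0 : ∀ j, 0 ≤ x j := by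
    intro j
    rw [hx]
    positivity
  have hx1 : ∀ j : ℕ × (Fin w → ℂ), j.1 ≤ E → x j ≤ 1 / 4 := by
    intro j hj
    have h1 : (2 : ℝ) ^ j.1 ≤ 2 ^ E := pow_le_pow_right₀ (by norm_num) hj
    have h2 : 2 ^ j.1 * (C * R) ≤ 1 / 2 := (mul_le_mul_of_nonneg_right h1 (by positivity)).trans hCR
    have h3 : x j = (2 ^ j.1 * (C * R)) ^ 2 := by rw [hx]; ring
    have h4 : 0 ≤ 2 ^ j.1 * (C * R) := by positivity
    rw [h3]
    nlinarith
  obtain ⟨o, ho⟩ : ∃ o : ℕ × (Fin w → ℂ), o = (0, 0) := ⟨_, rfl⟩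
  obtain ⟨B, hB⟩ : ∃ B : ℕ, B = (D - 1) * ∑ j ∈ β.support, β j := ⟨_, rfl⟩
  obtain ⟨A, hA⟩ : ∃ A : ℕ, A = M ^ 2 * (B + 2) := ⟨_, rfl⟩
  obtain ⟨y, hy⟩ : ∃ y : ℝ, y = (w * A) * x o := ⟨_, rfl⟩
  have hy0 : 0 ≤ y := by
    rw [hy]
    have := hx0 o
    positivity
  obtain ⟨K, hK⟩ : ∃ K : ℕ, K = ⌈2 * y⌉₊ + B + 1 := ⟨_, rfl⟩
  -- the number of the conditions
  have hcount : M ^ (2 * w) * K ^ w < (A + 1) ^ w * D := by
    have h1 : M ^ 2 * K < (A + 1) * κ := by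
      have h2 : ((M ^ 2 * K : ℕ) : ℝ) < (((A + 1) * κ : ℕ) : ℝ) := by
        push_cast
        have hK1 : (K : ℝ) < 2 * y + 1 + B + 1 := by
          rw [hK]
          push_cast
          have := Nat.ceil_lt_add_one (show 0 ≤ 2 * y by positivity)
          linarith
        have e1 : (M : ℝ) ^ 2 * (2 * y) = 8 * C ^ 2 * S ^ 2 * w * A := by
          rw [hy, hx, hR, ho]
          simp only [pow_zero, one_mul]
          field_simp
          ring
        have e2 : (M : ℝ) ^ 2 * (B + 2) = A := by rw [hA]; push_cast; ring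
        have hA0 : (0 : ℝ) ≤ A := Nat.cast_nonneg _
        have hκ0 : (0 : ℝ) ≤ κ := Nat.cast_nonneg _
        have hM2 : (0 : ℝ) < (M : ℝ) ^ 2 := by positivity
        calc (M : ℝ) ^ 2 * K < M ^ 2 * (2 * y + 1 + B + 1) := mul_lt_mul_of_pos_left hK1 hM2
          _ = M ^ 2 * (2 * y) + M ^ 2 * (B + 2) := by ring
          _ = 8 * C ^ 2 * S ^ 2 * w * A + A := by rw [e1, e2]
          _ = (8 * C ^ 2 * S ^ 2 * w + 1) * A := by ring
          _ ≤ κ * A := mul_le_mul_of_nonneg_right hκ1 hA0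
          _ ≤ (A + 1) * κ := by linarith
      exact_mod_cast h2
    calc M ^ (2 * w) * K ^ w = (M ^ 2 * K) ^ w := by rw [mul_pow, ← pow_mul]
      _ < ((A + 1) * κ) ^ w := Nat.pow_lt_pow_left h1 (by omega)
      _ = (A + 1) ^ w * D := by rw [mul_pow, hD]
  -- the degree
  obtain ⟨γ, hγ⟩ : ∃ γ : (ℕ × (Fin w → ℂ)) →₀ ℕ, γ = Finsupp.single o (w * A) + (D - 1) • β := ⟨_, rfl⟩
  have hγE : ∀ j ∈ γ.support, j.1 ≤ E := by
    intro j hj
    rw [hγ] at hj
    rcases Finset.mem_union.1 (Finsupp.support_add hj) with h | h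
    · have h1 := Finsupp.support_single_subset h
      rw [Finset.mem_singleton] at h1
      rw [h1, ho]
      exact Nat.zero_le _
    · exact hEj j (Finsupp.support_smul h)
  have hq : ∀ j ∈ γ.support, 1 ≤ Real.exp (x j) ^ 2 * (1 - C ^ 2 * (2 ^ j.1 * R) ^ 2) := by
    intro j hj
    have h1 := hx1 j (hγE j hj)
    have h0 := hx0 j
    have e : C ^ 2 * (2 ^ j.1 * R) ^ 2 = x j := by rw [hx]
    have e2 : Real.exp (x j) ^ 2 = Real.exp (2 * x j) := by
      rw [← Real.exp_nat_mul]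
      norm_num
    rw [e, e2]
    have h2 := Real.add_one_le_exp (2 * x j)
    have h3 : (2 * x j + 1) * (1 - x j) ≤ Real.exp (2 * x j) * (1 - x j) :=
      mul_le_mul_of_nonneg_right h2 (by linarith)
    nlinarith
  have hKγ : (γ.prod fun j e => Real.exp (x j) ^ e) < 2 ^ K := by
    have h1 : Real.exp (x o) ^ (w * A) = Real.exp y := by
      rw [← Real.exp_nat_mul, hy]
      push_cast
      rfl
    have h2 : (((D - 1) • β).prod fun j e => Real.exp (x j) ^ e) ≤ 2 ^ B := by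
      have e3 : (((D - 1) • β).prod fun j e => Real.exp (x j) ^ e) =
          ∏ j ∈ β.support, Real.exp (x j) ^ ((D - 1) * β j) :=
        Finsupp.prod_of_support_subset _ Finsupp.support_smul _ fun _ _ => pow_zero _
      rw [e3]
      calc ∏ j ∈ β.support, Real.exp (x j) ^ ((D - 1) * β j) ≤ ∏ j ∈ β.support, (2 : ℝ) ^ ((D - 1) * β j) := by
            refine Finset.prod_le_prod (fun j _ => by positivity) fun j hj => ?_
            refine pow_le_pow_left₀ (Real.exp_pos _).le ?_ _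
            refine le_trans (Real.exp_le_exp.2 ?_) exp_half
            have := hx1 j (hEj j hj)
            linarith
        _ = 2 ^ B := by rw [Finset.prod_pow_eq_pow_sum, ← Finset.mul_sum, hB]
    have h3 : Real.exp y ≤ 2 ^ ⌈2 * y⌉₊ := by
      calc Real.exp y ≤ Real.exp ((⌈2 * y⌉₊ : ℕ) * (1 / 2)) := by
            refine Real.exp_le_exp.2 ?_
            have := Nat.le_ceil (2 * y)
            linarith
        _ = Real.exp (1 / 2) ^ ⌈2 * y⌉₊ := by rw [Real.exp_nat_mul]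
        _ ≤ 2 ^ ⌈2 * y⌉₊ := pow_le_pow_left₀ (Real.exp_pos _).le exp_half _
    have h4 : (γ.prod fun j e => Real.exp (x j) ^ e) =
        ((Finsupp.single o (w * A)).prod fun j e => Real.exp (x j) ^ e) *
          (((D - 1) • β).prod fun j e => Real.exp (x j) ^ e) := by
      rw [hγ]
      exact Finsupp.prod_add_index' (fun _ => pow_zero _) (fun _ _ _ => pow_add _ _ _)
    have h5 : ((Finsupp.single o (w * A)).prod fun j e => Real.exp (x j) ^ e) = Real.exp (x o) ^ (w * A) :=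
      Finsupp.prod_single_index (pow_zero _)
    rw [h4, h5, h1]
    calc Real.exp y * (((D - 1) • β).prod fun j e => Real.exp (x j) ^ e) ≤ 2 ^ ⌈2 * y⌉₊ * 2 ^ B :=
          mul_le_mul h3 h2 (Finset.prod_nonneg fun j _ => by positivity) (by positivity)
      _ = 2 ^ (⌈2 * y⌉₊ + B) := by rw [pow_add]
      _ < 2 ^ K := by
          rw [hK]
          exact pow_lt_pow_right₀ (by norm_num) (by omega)
  -- the summands
  obtain ⟨TT, hTT⟩ : ∃ TT : (Fin w → Fin (A + 1)) → Fin D → MvPolynomial ((ℕ × (Fin w → ℂ)) × Fin (n + 1)) ℂ,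
      TT = fun (α : Fin w → Fin (A + 1)) (d : Fin D) => X (o, l0) ^ (w * A - ∑ i, (α i : ℕ)) * (∏ i, X (o, l i) ^ (α i : ℕ)) * P ^ (d : ℕ) *
        Q ^ (D - 1 - (d : ℕ)) := ⟨_, rfl⟩
  have hTM : ∀ α d, MH γ (TT α d) := by
    intro α d
    rw [MH_iff, hTT]
    have hX : ∀ l', IsWeightedHomogeneous (wt (ℕ × (Fin w → ℂ)) n)
        (X (o, l') : MvPolynomial ((ℕ × (Fin w → ℂ)) × Fin (n + 1)) ℂ) (Finsupp.single o 1) :=
      fun l' => isWeightedHomogeneous_X ℂ _ _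
    have h1 := (hX l0).pow (w * A - ∑ i, (α i : ℕ))
    have h2 := IsWeightedHomogeneous.prod (w := wt (ℕ × (Fin w → ℂ)) n) Finset.univ
      (fun i => (X (o, l i) : MvPolynomial ((ℕ × (Fin w → ℂ)) × Fin (n + 1)) ℂ) ^ (α i : ℕ))
      (fun i => (α i : ℕ) • Finsupp.single o 1) (fun i _ => (hX (l i)).pow _)
    have h3 := ((MH_iff _ _).1 hP).pow (d : ℕ)
    have h4 := ((MH_iff _ _).1 hQ).pow (D - 1 - (d : ℕ))
    have h5 := ((h1.mul h2).mul h3).mul h4
    have hsum : ∑ i, (α i : ℕ) ≤ w * A := by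
      calc ∑ i, (α i : ℕ) ≤ ∑ _i : Fin w, A := Finset.sum_le_sum fun i _ => by
            have := (α i).2
            omega
        _ = w * A := by simp
    have e : (w * A - ∑ i, (α i : ℕ)) • Finsupp.single o 1 + ∑ i, (α i : ℕ) • Finsupp.single o 1 + (d : ℕ) • β +
        (D - 1 - (d : ℕ)) • β = γ := by
      have hd := d.2
      rw [hγ, ← Finset.sum_smul, ← add_smul, add_assoc, ← add_smul, Nat.sub_add_cancel hsum,
        Finsupp.smul_single, smul_eq_mul, mul_one]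
      congr 2
      omega
    rw [e] at h5
    exact h5
  have hevT : ∀ α d t, ev g (TT α d) t = (g t).rep l0 ^ (w * A - ∑ i, (α i : ℕ)) *
      (∏ i, (g t).rep (l i) ^ (α i : ℕ)) * ev g P t ^ (d : ℕ) * ev g Q t ^ (D - 1 - (d : ℕ)) := by
    intro α d t
    have hmp : mp g o t = g t := by
      unfold mp
      rw [ho]
      simp
    rw [hTT]
    unfold ev
    simp only [map_mul, map_pow, map_prod, eval_X, hmp]
  -- the combination
  obtain ⟨e1, -⟩ : ∃ e1 : (Fin (2 * w) → Fin M) ≃ Fin (M ^ (2 * w)), True := ⟨finFunctionFinEquiv, trivial⟩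
  obtain ⟨e2, -⟩ : ∃ e2 : ((Fin w → Fin (A + 1)) × Fin D) ≃ Fin ((A + 1) ^ w * D), True :=
    ⟨(Equiv.prodCongr finFunctionFinEquiv (Equiv.refl _)).trans finProdFinEquiv, trivial⟩
  obtain ⟨a, ha0, ha⟩ := hJ w ((A + 1) ^ w * D) K (M ^ (2 * w)) (fun x => cen b M (e1.symm x))
    (fun x j t => ev g (TT (e2.symm j).1 (e2.symm j).2) t / Lam g γ (cen b M (e1.symm x)) t)
    (fun x j => an_quot g hg γ _ (hTM _ _) _ _ fun j' _ => by
      unfold lam
      exact div_ne_zero (ip_self_ne (mp g j' _).rep_nonzero)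
        (by exact_mod_cast (nn_pos (mp g j' _).rep_nonzero).ne')) hcount
  obtain ⟨T, hT⟩ : ∃ T : MvPolynomial ((ℕ × (Fin w → ℂ)) × Fin (n + 1)) ℂ,
      T = ∑ j, MvPolynomial.C (a j) * TT (e2.symm j).1 (e2.symm j).2 := ⟨_, rfl⟩
  have hTMH : MH γ T := by
    rw [MH_iff, hT]
    refine IsWeightedHomogeneous.sum _ _ _ fun j _ => ?_
    exact ((MH_iff _ _).1 (hTM _ _)).C_mul _
  have hevs : ∀ t, ev g T t = ∑ j, a j * ev g (TT (e2.symm j).1 (e2.symm j).2) t := by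
    intro t
    rw [hT]
    unfold ev
    simp only [map_sum, map_mul, eval_C]
  have hzero := vanish hS g hg hL b hper γ T hTMH M hM0 R hR0 (by rw [← hSd, hR]; apply le_of_eq; ring)
    (fun j => Real.exp (x j)) (fun j => Real.exp_pos _) hq K hKγ (by
      intro e
      have h1 := ha (e1 e)
      rw [Equiv.symm_apply_apply] at h1
      refine h1.congr_left fun t => ?_
      rw [hevs, Finset.sum_div]
      exact Finset.sum_congr rfl fun j _ => by rw [mul_div_assoc])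
  refine ⟨A, fun α d => a (e2 (α, d)), ?_, ?_⟩
  · intro h0
    apply ha0
    funext j
    have h1 := congrFun (congrFun h0 (e2.symm j).1) (e2.symm j).2
    simpa using h1
  · intro t
    have h1 := hzero t
    rw [hevs, ← Equiv.sum_comp e2, Fintype.sum_prod_type] at h1
    rw [← h1]
    refine Finset.sum_congr rfl fun α _ => Finset.sum_congr rfl fun d _ => ?_
    rw [Equiv.symm_apply_apply, hevT]
    ring

end Run7.h824.TA
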