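import Pool.Agent.Run7.h177.TA.Iface

/-!
# Project TA (helper177), piece SIE, part a: multihomogeneous forms, Hermitian products, analyticity (helper824)
-/

set_option autoImplicit false

namespace Run7.h824.TA

open MvPolynomial Filter Topology Asymptotics Metric
open Pool.Agent.TH182.TC (PS Holo HoloAt)
open Run7.h177.TA (MH ev mp)

/-! ### Multihomogeneous polynomials -/

section MHs

variable {J : Type} {n : ℕ}

/-- the weights -/
noncomputable def wt (J : Type) (n : ℕ) : J × Fin (n + 1) → (J →₀ ℕ) := fun x => Finsupp.single x.1 1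

theorem weight_wt (m : J × Fin (n + 1) →₀ ℕ) (j : J) : (Finsupp.weight (wt J n) m) j = ∑ l, m (j, l) := by
  classical
  induction m using Finsupp.induction_linear with
  | zero => simp
  | add f g hf hg => simp [map_add, hf, hg, Finset.sum_add_distrib]
  | single a c =>
    rw [Finsupp.weight_single]
    obtain ⟨a, b⟩ := a
    simp only [wt, Finsupp.smul_apply, Finsupp.single_apply, Prod.mk.injEq]
    by_cases h : a = j
    · subst h
      simp
    · simp [h]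

theorem MH_iff (β : J →₀ ℕ) (P : MvPolynomial (J × Fin (n + 1)) ℂ) :
    MH β P ↔ IsWeightedHomogeneous (wt J n) P β := by
  constructor
  · intro h m hm
    ext j
    rw [weight_wt]
    exact h m (mem_support_iff.2 hm) j
  · intro h m hm j
    rw [← weight_wt, h (mem_support_iff.1 hm)]

theorem prod_wt {R : Type} [CommMonoid R] (κ : J → R) (d : J × Fin (n + 1) →₀ ℕ) :
    (d.prod fun i e => κ i.1 ^ e) = (Finsupp.weight (wt J n) d).prod fun j e => κ j ^ e := by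
  classical
  induction d using Finsupp.induction_linear with
  | zero => simp
  | add f g hf hg =>
    rw [map_add, Finsupp.prod_add_index' (fun _ => pow_zero _) (fun _ _ _ => pow_add _ _ _),
      Finsupp.prod_add_index' (fun _ => pow_zero _) (fun _ _ _ => pow_add _ _ _), hf, hg]
  | single a c =>
    have e1 : ((Finsupp.single a c).prod fun i e => κ i.1 ^ e) = κ a.1 ^ c := Finsupp.prod_single_index (pow_zero _)
    have e2 : c • wt J n a = Finsupp.single a.1 c := by simp [wt, Finsupp.smul_single]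
    rw [Finsupp.weight_single, e1, e2, Finsupp.prod_single_index]
    exact pow_zero _

theorem prod_MH {R : Type} [CommMonoid R] {γ : J →₀ ℕ} {T : MvPolynomial (J × Fin (n + 1)) ℂ} (hT : MH γ T)
    (κ : J → R) {d : J × Fin (n + 1) →₀ ℕ} (hd : d ∈ T.support) :
    ∏ i ∈ d.support, κ i.1 ^ d i = γ.prod fun j e => κ j ^ e := by
  have h1 := prod_wt κ d
  rw [((MH_iff γ T).1 hT) (mem_support_iff.1 hd)] at h1
  exact h1

theorem supp_MH {γ : J →₀ ℕ} {T : MvPolynomial (J × Fin (n + 1)) ℂ} (hT : MH γ T)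
    {d : J × Fin (n + 1) →₀ ℕ} (hd : d ∈ T.support) {i : J × Fin (n + 1)} (hi : i ∈ d.support) :
    i.1 ∈ γ.support := by
  rw [Finsupp.mem_support_iff] at hi ⊢
  rw [← hT d hd i.1]
  have h1 : d i ≤ ∑ l, d (i.1, l) :=
    Finset.single_le_sum (f := fun l => d (i.1, l)) (fun _ _ => Nat.zero_le _) (Finset.mem_univ i.2)
  omega

theorem eval_scale {γ : J →₀ ℕ} {T : MvPolynomial (J × Fin (n + 1)) ℂ} (hT : MH γ T) (κ : J → ℂ)
    (x y : J × Fin (n + 1) → ℂ) (h : ∀ j ∈ γ.support, ∀ l, x (j, l) = κ j * y (j, l)) :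
    eval x T = (γ.prod fun j e => κ j ^ e) * eval y T := by
  rw [eval_eq, eval_eq, Finset.mul_sum]
  refine Finset.sum_congr rfl fun d hd => ?_
  rw [← prod_MH hT κ hd]
  have h1 : ∏ i ∈ d.support, x i ^ d i = ∏ i ∈ d.support, (κ i.1 ^ d i * y i ^ d i) := by
    refine Finset.prod_congr rfl fun i hi => ?_
    rw [← mul_pow, ← h i.1 (supp_MH hT hd hi) i.2]
  rw [h1, Finset.prod_mul_distrib]
  ring

theorem eval_bound {γ : J →₀ ℕ} {T : MvPolynomial (J × Fin (n + 1)) ℂ} (hT : MH γ T) (κ : J → ℝ)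
    (x : J × Fin (n + 1) → ℂ) (h : ∀ j l, ‖x (j, l)‖ ≤ κ j) :
    ‖eval x T‖ ≤ (∑ d ∈ T.support, ‖coeff d T‖) * (γ.prod fun j e => κ j ^ e) := by
  rw [eval_eq, Finset.sum_mul]
  refine (norm_sum_le _ _).trans (Finset.sum_le_sum fun d hd => ?_)
  rw [norm_mul, norm_prod, ← prod_MH hT κ hd]
  refine mul_le_mul_of_nonneg_left ?_ (norm_nonneg _)
  refine Finset.prod_le_prod (fun _ _ => norm_nonneg _) fun i _ => ?_
  rw [norm_pow]
  exact pow_le_pow_left₀ (norm_nonneg _) (h i.1 i.2) _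

end MHs

/-! ### Hermitian products -/

section Herm

variable {n : ℕ}

/-- the Euclidean norm -/
noncomputable def nn (x : Fin (n + 1) → ℂ) : ℝ := Real.sqrt (∑ i, ‖x i‖ ^ 2)

/-- the Hermitian product -/
noncomputable def ip (x y : Fin (n + 1) → ℂ) : ℂ := ∑ i, x i * (starRingEnd ℂ) (y i)

theorem nn_sq (x : Fin (n + 1) → ℂ) : nn x ^ 2 = ∑ i, ‖x i‖ ^ 2 :=
  Real.sq_sqrt (Finset.sum_nonneg fun _ _ => sq_nonneg _)

theorem nn_nonneg (x : Fin (n + 1) → ℂ) : 0 ≤ nn x := Real.sqrt_nonneg _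

theorem le_nn (x : Fin (n + 1) → ℂ) (i : Fin (n + 1)) : ‖x i‖ ≤ nn x := by
  refine Real.le_sqrt_of_sq_le ?_
  exact Finset.single_le_sum (f := fun i => ‖x i‖ ^ 2) (fun _ _ => sq_nonneg _) (Finset.mem_univ i)

theorem nn_pos {x : Fin (n + 1) → ℂ} (hx : x ≠ 0) : 0 < nn x := by
  obtain ⟨i, hi⟩ := Function.ne_iff.1 hx
  exact lt_of_lt_of_le (norm_pos_iff.2 hi) (le_nn x i)

theorem cs (x y : Fin (n + 1) → ℂ) : ‖ip x y‖ ≤ nn x * nn y := by
  unfold ip nn
  refine (norm_sum_le _ _).trans ?_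
  have h1 := Real.sum_mul_le_sqrt_mul_sqrt Finset.univ (fun i => ‖x i‖) (fun i => ‖y i‖)
  refine le_trans (le_of_eq ?_) h1
  refine Finset.sum_congr rfl fun i _ => ?_
  rw [norm_mul, RCLike.norm_conj]

theorem ip_smul (c : ℂ) (x y : Fin (n + 1) → ℂ) : ip (fun i => c * x i) y = c * ip x y := by
  unfold ip
  rw [Finset.mul_sum]
  refine Finset.sum_congr rfl fun i _ => ?_
  ring

end Herm

/-! ### The quotients -/

section Quot

variable {w n : ℕ}

/-- the coordinate in the direction of the value at the centre -/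
noncomputable def lam (g : (Fin w → ℂ) → PS n) (c : Fin w → ℂ) (j : ℕ × (Fin w → ℂ)) (t : Fin w → ℂ) : ℂ :=
  ip (mp g j t).rep (mp g j c).rep / (nn (mp g j c).rep : ℂ)

/-- the product of these -/
noncomputable def Lam (g : (Fin w → ℂ) → PS n) (γ : (ℕ × (Fin w → ℂ)) →₀ ℕ) (c t : Fin w → ℂ) : ℂ :=
  γ.prod fun j e => lam g c j t ^ e

/-- the product of the norms -/
noncomputable def NN (g : (Fin w → ℂ) → PS n) (γ : (ℕ × (Fin w → ℂ)) →₀ ℕ) (t : Fin w → ℂ) : ℝ :=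
  γ.prod fun j e => nn (mp g j t).rep ^ e

theorem norm_lam_le (g : (Fin w → ℂ) → PS n) (c : Fin w → ℂ) (j : ℕ × (Fin w → ℂ)) (t : Fin w → ℂ) :
    ‖lam g c j t‖ ≤ nn (mp g j t).rep := by
  have h0 := nn_pos (mp g j c).rep_nonzero
  unfold lam
  rw [norm_div, Complex.norm_real, Real.norm_of_nonneg h0.le, div_le_iff₀ h0]
  exact cs _ _

theorem NN_pos (g : (Fin w → ℂ) → PS n) (γ : (ℕ × (Fin w → ℂ)) →₀ ℕ) (t : Fin w → ℂ) : 0 < NN g γ t :=
  Finset.prod_pos fun j _ => pow_pos (nn_pos (mp g j t).rep_nonzero) _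

theorem norm_Lam_le (g : (Fin w → ℂ) → PS n) (γ : (ℕ × (Fin w → ℂ)) →₀ ℕ) (c t : Fin w → ℂ) :
    ‖Lam g γ c t‖ ≤ NN g γ t := by
  unfold Lam NN Finsupp.prod
  rw [norm_prod]
  refine Finset.prod_le_prod (fun _ _ => norm_nonneg _) fun j _ => ?_
  rw [norm_pow]
  exact pow_le_pow_left₀ (norm_nonneg _) (norm_lam_le g c j t) _

theorem an_mp (g : (Fin w → ℂ) → PS n) (hg : Holo g) (j : ℕ × (Fin w → ℂ)) (t₀ : Fin w → ℂ) :
    ∃ ψ : (Fin w → ℂ) → Fin (n + 1) → ℂ, AnalyticAt ℂ ψ t₀ ∧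
      ∀ᶠ t in 𝓝 t₀, ∃ h : ψ t ≠ 0, mp g j t = Projectivization.mk ℂ (ψ t) h := by
  obtain ⟨φ, hφ, hφe⟩ := hg ((2 : ℂ) ^ j.1 • t₀ + j.2)
  have ha : AnalyticAt ℂ (fun t : Fin w → ℂ => (2 : ℂ) ^ j.1 • t + j.2) t₀ := by
    fun_prop
  refine ⟨fun t => φ ((2 : ℂ) ^ j.1 • t + j.2), AnalyticAt.fun_comp hφ ha, ?_⟩
  exact ha.continuousAt.eventually hφe

theorem an_quot (g : (Fin w → ℂ) → PS n) (hg : Holo g) (γ : (ℕ × (Fin w → ℂ)) →₀ ℕ)
    (T : MvPolynomial ((ℕ × (Fin w → ℂ)) × Fin (n + 1)) ℂ) (hT : MH γ T) (c t₀ : Fin w → ℂ)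
    (hne : ∀ j ∈ γ.support, lam g c j t₀ ≠ 0) : AnalyticAt ℂ (fun t => ev g T t / Lam g γ c t) t₀ := by
  choose ψ hψ hψe using fun j => an_mp g hg j t₀
  have hev : ∀ᶠ t in 𝓝 t₀, ∀ j ∈ γ.support, ∃ h : ψ j t ≠ 0, mp g j t = Projectivization.mk ℂ (ψ j t) h :=
    (Filter.eventually_all_finset _).2 fun j _ => hψe j
  -- the scaling
  have hsc : ∀ t, (∀ j ∈ γ.support, ∃ h : ψ j t ≠ 0, mp g j t = Projectivization.mk ℂ (ψ j t) h) →
      ∃ κ : (ℕ × (Fin w → ℂ)) → ℂ, (∀ j, κ j ≠ 0) ∧ ∀ j ∈ γ.support, ∀ l, (mp g j t).rep l = κ j * ψ j t l := by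
    intro t ht
    have h1 : ∀ j, ∃ κ : ℂ, κ ≠ 0 ∧ (j ∈ γ.support → ∀ l, (mp g j t).rep l = κ * ψ j t l) := by
      intro j
      by_cases hj : j ∈ γ.support
      · obtain ⟨h, he⟩ := ht j hj
        obtain ⟨a, ha⟩ := Projectivization.exists_smul_eq_mk_rep ℂ (ψ j t) h
        refine ⟨a, a.ne_zero, fun _ l => ?_⟩
        rw [he, ← ha]
        rfl
      · exact ⟨1, one_ne_zero, fun h => absurd h hj⟩
    choose κ hκ hκe using h1
    exact ⟨κ, hκ, fun j hj => hκe j hj⟩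
  have hip : ∀ (t : Fin w → ℂ) (κ : (ℕ × (Fin w → ℂ)) → ℂ) (j : ℕ × (Fin w → ℂ)),
      (∀ l, (mp g j t).rep l = κ j * ψ j t l) →
      lam g c j t = κ j * (ip (ψ j t) (mp g j c).rep / (nn (mp g j c).rep : ℂ)) := by
    intro t κ j h
    have e : (mp g j t).rep = fun l => κ j * ψ j t l := funext h
    unfold lam
    rw [e, ip_smul, mul_div_assoc]
  have hcongr : (fun t => ev g T t / Lam g γ c t) =ᶠ[𝓝 t₀] fun t => eval (fun x => ψ x.1 t x.2) T /
      γ.prod fun j e => (ip (ψ j t) (mp g j c).rep / (nn (mp g j c).rep : ℂ)) ^ e := by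
    filter_upwards [hev] with t ht
    obtain ⟨κ, hκ, hκe⟩ := hsc t ht
    have h1 : ev g T t = (γ.prod fun j e => κ j ^ e) * eval (fun x => ψ x.1 t x.2) T := by
      unfold ev
      exact eval_scale hT κ _ _ fun j hj l => hκe j hj l
    have h2 : Lam g γ c t = (γ.prod fun j e => κ j ^ e) *
        γ.prod fun j e => (ip (ψ j t) (mp g j c).rep / (nn (mp g j c).rep : ℂ)) ^ e := by
      unfold Lam Finsupp.prod
      rw [← Finset.prod_mul_distrib]
      refine Finset.prod_congr rfl fun j hj => ?_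
      beta_reduce
      rw [hip t κ j (hκe j hj), mul_pow]
    have h3 : (γ.prod fun j e => κ j ^ e) ≠ 0 := Finset.prod_ne_zero_iff.2 fun j _ => pow_ne_zero _ (hκ j)
    rw [h1, h2, mul_div_mul_left _ _ h3]
  refine AnalyticAt.congr ?_ hcongr.symm
  have hψl : ∀ j l, AnalyticAt ℂ (fun t => ψ j t l) t₀ := fun j l => analyticAt_pi_iff.1 (hψ j) l
  refine AnalyticAt.div ?_ ?_ ?_
  · simp only [eval_eq]
    refine Finset.analyticAt_fun_sum _ fun d _ => ?_
    refine analyticAt_const.mul ?_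
    refine Finset.analyticAt_fun_prod _ fun i _ => ?_
    exact (hψl i.1 i.2).pow _
  · unfold Finsupp.prod
    refine Finset.analyticAt_fun_prod _ fun j _ => ?_
    refine AnalyticAt.pow ?_ _
    refine AnalyticAt.div ?_ analyticAt_const ?_
    · unfold ip
      refine Finset.analyticAt_fun_sum _ fun l _ => ?_
      exact (hψl j l).mul analyticAt_const
    · exact_mod_cast (nn_pos (mp g j c).rep_nonzero).ne'
  · obtain ⟨κ, hκ, hκe⟩ := hsc t₀ hev.self_of_nhds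
    refine Finset.prod_ne_zero_iff.2 fun j hj => pow_ne_zero _ ?_
    have h1 := hne j hj
    rw [hip t₀ κ j (hκe j hj)] at h1
    exact right_ne_zero_of_mul h1

end Quot

end Run7.h824.TA
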